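import Mathlib
import Pool.Agent.R621.HS.Bie7

set_option autoImplicit false

/-!
# A bi-embeddability spectrum that is the union of two upper cones

There are a structure `A` with universe `ω` and incomparable Turing degrees `a`, `b` such that the
degrees of the structures bi-embeddable with `A` are exactly the degrees above `a` and the degrees
above `b`.
-/

namespace Pool.Agent.Results.MP_219b86_lc.TwoCones

open Pool.Agent.R621.BE

theorem result : ∃ (L : Lng) (A : Strc L) (a b : TDeg), ¬ a ≤ b ∧ ¬ b ≤ a ∧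
    A.univ = Set.univ ∧
    {d : TDeg | ∃ B : Strc L, B.univ = Set.univ ∧ BiEmb A B ∧ deg B.diag = d} =
      {d | a ≤ d} ∪ {d | b ≤ d} ∧
    {d : TDeg | ∃ B : Strc L, BiEmb A B ∧ deg B.diag = d} = {d | a ≤ d} ∪ {d | b ≤ d} :=
  ⟨TL, AA, deg (setOf' sa), deg (setOf' sb), not_red_ab, not_red_ba, rfl, biSpecOmega_AA,
    biSpec_AA⟩

end Pool.Agent.Results.MP_219b86_lc.TwoCones
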